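import Pool.Agent.MP193109.NecA2
import Pool.Agent.Bloch.Defs

set_option autoImplicit false

open Set Filter Topology MeasureTheory

namespace BlochMult

theorem memB_iff {ω : ℝ → ℝ} {f : ℂ → ℂ} : MemB ω f ↔ Pool.Agent.MP193109.InB ω f := by
  constructor
  · rintro ⟨h1, C, r, hr, h⟩
    exact ⟨h1, C, r, hr.1, hr.2, h⟩
  · rintro ⟨h1, C, r, hr1, hr2, h⟩
    exact ⟨h1, C, r, ⟨hr1, hr2⟩, h⟩

theorem isInner_iff {Θ : ℂ → ℂ} : IsInner Θ ↔ Pool.Agent.MP193109.IsInner Θ := by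
  constructor
  · rintro ⟨h1, ⟨C, hC⟩, h2⟩
    exact ⟨h1, ⟨C, fun z hz => hC z (mem_ball_zero_iff.2 hz)⟩, h2⟩
  · rintro ⟨h1, ⟨C, hC⟩, h2⟩
    exact ⟨h1, ⟨C, fun z hz => hC z (mem_ball_zero_iff.1 hz)⟩, h2⟩

theorem sfin_iff {ω : ℝ → ℝ} {f Θ : ℂ → ℂ} {ε : ℝ} :
    SFin ω f Θ ε ↔ Pool.Agent.MP193109.SFinite ω f Θ ε := by
  constructor
  · rintro ⟨C, hC⟩
    exact ⟨C, fun z h0 h1 h2 => hC ⟨z, ⟨h0, h1, h2⟩, rfl⟩⟩
  · rintro ⟨C, hC⟩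
    refine ⟨C, ?_⟩
    rintro _ ⟨z, ⟨h0, h1, h2⟩, rfl⟩
    exact hC z h0 h1 h2

theorem propP_imp {ω : ℝ → ℝ} (h : PropP ω) : Pool.Agent.MP193109.PropertyP ω := by
  intro f Θ hf hΘ
  obtain ⟨h1, h2⟩ := h f (memB_iff.2 hf) Θ (isInner_iff.2 hΘ)
  have e1 : (∃ ε ∈ Ioo (0 : ℝ) 1, SFin ω f Θ ε) ↔
      ∃ ε : ℝ, 0 < ε ∧ ε < 1 ∧ Pool.Agent.MP193109.SFinite ω f Θ ε := by
    constructor
    · rintro ⟨ε, hε, hs⟩
      exact ⟨ε, hε.1, hε.2, sfin_iff.1 hs⟩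
    · rintro ⟨ε, h0, h1, hs⟩
      exact ⟨ε, ⟨h0, h1⟩, sfin_iff.2 hs⟩
  have e2 : (∀ ε ∈ Ioo (0 : ℝ) 1, SFin ω f Θ ε) ↔
      ∀ ε : ℝ, 0 < ε → ε < 1 → Pool.Agent.MP193109.SFinite ω f Θ ε := by
    constructor
    · intro hs ε h0 h1
      exact sfin_iff.1 (hs ε ⟨h0, h1⟩)
    · intro hs ε hε
      exact sfin_iff.2 (hs ε hε.1 hε.2)
  rw [memB_iff, e1] at h1
  rw [e1, e2] at h2
  exact ⟨h1, h2⟩

/-- necessity of the lower regularity -/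
theorem nec_lower {ω : ℝ → ℝ} (hω : IsModulus ω) (hP : PropP ω) :
    ∃ c t₀ : ℝ, 0 < c ∧ 0 < t₀ ∧ t₀ < 1 ∧
      ∀ s t : ℝ, 0 < s → s ≤ t → t ≤ t₀ → c * (s / t) ≤ ω s / ω t := by
  have hω' : Pool.Agent.MP193109.IsModulus ω := ⟨hω.1, hω.2.1, hω.2.2⟩
  obtain ⟨C, hC⟩ := Pool.Agent.MP193109.nec_A hω' (propP_imp hP)
  set C' := max C 1 with hC'
  have hC0 : 0 < C' := lt_max_of_lt_right one_pos
  refine ⟨1 / C', 1 / 2, by positivity, by norm_num, by norm_num, fun s t hs hst ht => ?_⟩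
  have ht0 : 0 < t := hs.trans_le hst
  have h1 := hC s t hs hst ht
  have hωs : 0 < ω s := hω'.pos' hs (by linarith)
  have hωt : 0 < ω t := hω'.pos' ht0 (by linarith)
  have h2 : ω t / t ≤ C' * (ω s / s) :=
    h1.trans (mul_le_mul_of_nonneg_right (le_max_left _ _) (by positivity))
  rw [le_div_iff₀ hωt]
  rw [div_le_iff₀ ht0] at h2
  calc 1 / C' * (s / t) * ω t ≤ 1 / C' * (s / t) * (C' * (ω s / s) * t) :=
        mul_le_mul_of_nonneg_left h2 (by positivity)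
    _ = ω s := by field_simp

end BlochMult
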