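import Pool.Agent.MP193109.Defs

set_option autoImplicit false

open Set Filter Topology MeasureTheory

namespace Pool.Agent.MP193109

/-- normalised Blaschke factor -/
noncomputable def bl (a z : ℂ) : ℂ := (‖a‖ / a) * ((a - z) / (1 - (starRingEnd ℂ) a * z))

/-- `1 - ρ(a,z)²` -/
noncomputable def dl (a z : ℂ) : ℝ :=
  (1 - ‖a‖ ^ 2) * (1 - ‖z‖ ^ 2) / ‖1 - (starRingEnd ℂ) a * z‖ ^ 2

theorem den_ge (a z : ℂ) : 1 - ‖a‖ * ‖z‖ ≤ ‖1 - (starRingEnd ℂ) a * z‖ := by
  have := norm_sub_norm_le (1 : ℂ) ((starRingEnd ℂ) a * z)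
  rwa [norm_one, norm_mul, Complex.norm_conj] at this

theorem den_pos {a z : ℂ} (ha : ‖a‖ < 1) (hz : ‖z‖ ≤ 1) : 0 < ‖1 - (starRingEnd ℂ) a * z‖ := by
  refine lt_of_lt_of_le ?_ (den_ge a z)
  nlinarith [norm_nonneg a, norm_nonneg z]

theorem den_ne {a z : ℂ} (ha : ‖a‖ < 1) (hz : ‖z‖ ≤ 1) : 1 - (starRingEnd ℂ) a * z ≠ 0 :=
  norm_pos_iff.1 (den_pos ha hz)

theorem norm_identity (a z : ℂ) : ‖1 - (starRingEnd ℂ) a * z‖ ^ 2 - ‖a - z‖ ^ 2 =
    (1 - ‖a‖ ^ 2) * (1 - ‖z‖ ^ 2) := by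
  rw [← Complex.normSq_eq_norm_sq, ← Complex.normSq_eq_norm_sq, ← Complex.normSq_eq_norm_sq,
    ← Complex.normSq_eq_norm_sq]
  simp only [Complex.normSq_apply, Complex.sub_re, Complex.sub_im, Complex.mul_re, Complex.mul_im,
    Complex.conj_re, Complex.conj_im, Complex.one_re, Complex.one_im]
  ring

theorem norm_bl_sq {a z : ℂ} (ha0 : a ≠ 0) (ha : ‖a‖ < 1) (hz : ‖z‖ ≤ 1) :
    ‖bl a z‖ ^ 2 = 1 - dl a z := by
  have h1 := den_pos ha hz
  have h2 : ‖a‖ ≠ 0 := norm_ne_zero_iff.2 ha0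
  have h3 : ‖(‖a‖ / a : ℂ)‖ = 1 := by
    rw [norm_div, Complex.norm_real, norm_norm, div_self h2]
  unfold bl dl
  rw [norm_mul, h3, one_mul, norm_div, div_pow, ← norm_identity, sub_div,
    div_self (pow_ne_zero 2 h1.ne')]
  ring

theorem dl_nonneg {a z : ℂ} (ha : ‖a‖ < 1) (hz : ‖z‖ ≤ 1) : 0 ≤ dl a z := by
  unfold dl
  have := norm_nonneg a
  have := norm_nonneg z
  have h1 : 0 ≤ 1 - ‖a‖ ^ 2 := by nlinarith
  have h2 : 0 ≤ 1 - ‖z‖ ^ 2 := by nlinarith
  positivity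

theorem dl_le_one {a z : ℂ} (ha0 : a ≠ 0) (ha : ‖a‖ < 1) (hz : ‖z‖ ≤ 1) : dl a z ≤ 1 := by
  have := norm_bl_sq ha0 ha hz
  have h2 := sq_nonneg ‖bl a z‖
  linarith

theorem norm_bl_le {a z : ℂ} (ha0 : a ≠ 0) (ha : ‖a‖ < 1) (hz : ‖z‖ ≤ 1) : ‖bl a z‖ ≤ 1 := by
  have h1 := norm_bl_sq ha0 ha hz
  have h2 := dl_nonneg ha hz
  have h3 := norm_nonneg (bl a z)
  nlinarith

theorem norm_bl_eq_one {a z : ℂ} (ha0 : a ≠ 0) (ha : ‖a‖ < 1) (hz : ‖z‖ = 1) : ‖bl a z‖ = 1 := by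
  have h1 := norm_bl_sq ha0 ha hz.le
  have h2 : dl a z = 0 := by unfold dl; rw [hz]; simp
  rw [h2, sub_zero] at h1
  have h3 := norm_nonneg (bl a z)
  nlinarith

theorem norm_bl_sub_one {a z : ℂ} (ha0 : a ≠ 0) (ha : ‖a‖ < 1) (hz : ‖z‖ ≤ 1) :
    ‖bl a z - 1‖ ≤ 2 * (1 - ‖a‖) / ‖1 - (starRingEnd ℂ) a * z‖ := by
  have h1 := den_ne ha hz
  have h1' := den_pos ha hz
  have h2 : ‖a‖ ≠ 0 := norm_ne_zero_iff.2 ha0
  have h3 : a * (starRingEnd ℂ) a = (‖a‖ : ℂ) ^ 2 := by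
    rw [Complex.mul_conj, Complex.normSq_eq_norm_sq]
    push_cast
    rfl
  have key : bl a z - 1 = -((1 - ‖a‖ : ℂ) * ((a + ‖a‖ * z) / a) / (1 - (starRingEnd ℂ) a * z)) := by
    unfold bl
    generalize hD : 1 - (starRingEnd ℂ) a * z = D at h1
    have h4 : (starRingEnd ℂ) a * z = 1 - D := by rw [← hD]; ring
    field_simp
    rw [← hD]
    linear_combination z * h3
  rw [key, norm_neg, norm_div, norm_mul]
  have h4 : ‖(1 - ‖a‖ : ℂ)‖ = 1 - ‖a‖ := by
    rw [← Complex.ofReal_one, ← Complex.ofReal_sub, Complex.norm_real, Real.norm_eq_abs,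
      abs_of_nonneg (by linarith)]
  have h5 : ‖(a + ‖a‖ * z) / a‖ ≤ 2 := by
    rw [norm_div, div_le_iff₀ (norm_pos_iff.2 ha0)]
    refine (norm_add_le _ _).trans ?_
    rw [norm_mul, Complex.norm_real, norm_norm]
    nlinarith [norm_nonneg a]
  rw [h4]
  refine div_le_div_of_nonneg_right ?_ h1'.le
  have h6 : 0 ≤ 1 - ‖a‖ := by linarith
  nlinarith

/-- an admissible family of zeros -/
structure Zeros {ι : Type*} (a : ι → ℂ) : Prop where
  ne : ∀ i, a i ≠ 0
  lt : ∀ i, ‖a i‖ < 1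
  summable : Summable fun i => 1 - ‖a i‖
  tendsto : Tendsto a cofinite (𝓝 1)

/-- Blaschke product -/
noncomputable def Bl {ι : Type*} (a : ι → ℂ) (z : ℂ) : ℂ := ∏' i, bl (a i) z

namespace Zeros

variable {ι : Type*} {a : ι → ℂ} (h : Zeros a)
include h

theorem continuousOn_bl (i : ι) : ContinuousOn (bl (a i)) (Metric.closedBall 0 1) := by
  unfold bl
  refine continuousOn_const.mul (ContinuousOn.div (by fun_prop) (by fun_prop) fun z hz => ?_)
  exact den_ne (h.lt i) (mem_closedBall_zero_iff.1 hz)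

theorem uniform {K : Set ℂ} (hK : IsCompact K) (hK1 : K ⊆ Metric.closedBall 0 1) {c : ℝ}
    (hc : 0 < c) (hcK : ∀ᶠ i in cofinite, ∀ z ∈ K, c ≤ ‖1 - (starRingEnd ℂ) (a i) * z‖) :
    HasProdUniformlyOn (fun i z => bl (a i) z) (Bl a) K := by
  have hu : Summable fun i => 2 / c * (1 - ‖a i‖) := h.summable.mul_left _
  have := Summable.hasProdUniformlyOn_one_add (f := fun i z => bl (a i) z - 1) hK hu ?_ ?_
  · simp only [add_sub_cancel] at this
    exact this
  · filter_upwards [hcK] with i hi z hz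
    refine (norm_bl_sub_one (h.ne i) (h.lt i) (mem_closedBall_zero_iff.1 (hK1 hz))).trans ?_
    have h1 := hi z hz
    have h2 : 0 ≤ 2 * (1 - ‖a i‖) := by have := h.lt i; linarith
    calc 2 * (1 - ‖a i‖) / ‖1 - (starRingEnd ℂ) (a i) * z‖ ≤ 2 * (1 - ‖a i‖) / c :=
          div_le_div_of_nonneg_left h2 hc h1
      _ = _ := by ring
  · exact fun i => ((h.continuousOn_bl i).mono hK1).sub continuousOn_const

theorem uniform_ball {r : ℝ} (hr : r < 1) :
    HasProdUniformlyOn (fun i z => bl (a i) z) (Bl a) (Metric.closedBall 0 r) := by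
  refine h.uniform (isCompact_closedBall _ _) (Metric.closedBall_subset_closedBall hr.le)
    (c := 1 - r) (by linarith) (Eventually.of_forall fun i z hz => ?_)
  refine le_trans ?_ (den_ge (a i) z)
  have h1 := h.lt i
  have h2 := mem_closedBall_zero_iff.1 hz
  nlinarith [norm_nonneg (a i), norm_nonneg z]

theorem hasProd {z : ℂ} (hz : ‖z‖ < 1) : HasProd (fun i => bl (a i) z) (Bl a z) :=
  (h.uniform_ball hz).hasProd (mem_closedBall_zero_iff.2 le_rfl)

theorem hasProd_sq {z : ℂ} (hz : ‖z‖ < 1) : HasProd (fun i => 1 - dl (a i) z) (‖Bl a z‖ ^ 2) := by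
  have h1 : HasProd (fun i => ‖bl (a i) z‖ ^ 2) (‖Bl a z‖ ^ 2) := by
    have h0 := h.hasProd hz
    unfold HasProd at h0 ⊢
    have h2 := (h0.norm).pow 2
    refine h2.congr fun s => ?_
    rw [norm_prod, ← Finset.prod_pow]
  have h2 : (fun i => 1 - dl (a i) z) = fun i => ‖bl (a i) z‖ ^ 2 :=
    funext fun i => (norm_bl_sq (h.ne i) (h.lt i) hz.le).symm
  rw [h2]
  exact h1

theorem differentiableOn : DifferentiableOn ℂ (Bl a) (Metric.ball 0 1) := by
  have h1 : HasProdLocallyUniformlyOn (fun i z => bl (a i) z) (Bl a) (Metric.ball 0 1) := by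
    refine hasProdLocallyUniformlyOn_of_forall_compact Metric.isOpen_ball fun K hK hKc => ?_
    rcases K.eq_empty_or_nonempty with rfl | hne
    · rw [hasProdUniformlyOn_iff_tendstoUniformlyOn]
      exact tendstoUniformlyOn_empty
    obtain ⟨x, hxK, hx⟩ := hKc.exists_isMaxOn hne continuous_norm.continuousOn
    refine (h.uniform_ball (mem_ball_zero_iff.1 (hK hxK))).mono fun y hy => ?_
    exact mem_closedBall_zero_iff.2 (hx hy)
  rw [hasProdLocallyUniformlyOn_iff_tendstoLocallyUniformlyOn] at h1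
  refine h1.differentiableOn (Eventually.of_forall fun s => ?_) Metric.isOpen_ball
  have : ∀ i, DifferentiableOn ℂ (bl (a i)) (Metric.ball 0 1) := by
    intro i
    unfold bl
    refine DifferentiableOn.const_mul (DifferentiableOn.div (by fun_prop) (by fun_prop)
      fun z hz => ?_) _
    exact den_ne (h.lt i) (mem_ball_zero_iff.1 hz).le
  exact DifferentiableOn.fun_finsetProd fun i _ => this i

theorem norm_le {z : ℂ} (hz : ‖z‖ < 1) : ‖Bl a z‖ ≤ 1 := by
  have h0 := h.hasProd hz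
  refine le_of_tendsto (h0.norm) (Eventually.of_forall fun s => ?_)
  exact Finset.prod_le_one (fun i _ => norm_nonneg _) fun i _ =>
    norm_bl_le (h.ne i) (h.lt i) hz.le

theorem radial_limit {ζ : ℂ} (hζ : ‖ζ‖ = 1) (hζ1 : ζ ≠ 1) :
    ∃ w : ℂ, ‖w‖ = 1 ∧ Tendsto (fun r : ℝ => Bl a (r * ζ)) (𝓝[<] 1) (𝓝 w) := by
  set K : Set ℂ := (fun r : ℝ => (r : ℂ) * ζ) '' Icc 0 1 with hK
  have hKc : IsCompact K := isCompact_Icc.image (by fun_prop)
  have hK1 : K ⊆ Metric.closedBall 0 1 := by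
    rintro _ ⟨r, hr, rfl⟩
    rw [mem_closedBall_zero_iff, norm_mul, hζ, mul_one, Complex.norm_real, Real.norm_eq_abs,
      abs_of_nonneg hr.1]
    exact hr.2
  have hζK : ζ ∈ K := ⟨1, ⟨zero_le_one, le_rfl⟩, by simp⟩
  obtain ⟨x, hxK, hx⟩ := hKc.exists_isMinOn ⟨ζ, hζK⟩
    (f := fun z : ℂ => ‖1 - z‖) (by fun_prop)
  have hd : 0 < ‖1 - x‖ := by
    rw [norm_pos_iff, sub_ne_zero]
    rintro rfl
    obtain ⟨r, hr, hr1⟩ := hxK
    simp only at hr1
    have h2 := congrArg norm hr1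
    rw [norm_mul, hζ, mul_one, Complex.norm_real, Real.norm_eq_abs, abs_of_nonneg hr.1,
      norm_one] at h2
    rw [h2] at hr1
    apply hζ1
    simpa using hr1
  set d := ‖1 - x‖ with hdd
  have hunif := h.uniform hKc hK1 (c := d / 2) (by positivity) (by
    have h1 : ∀ᶠ i in cofinite, dist (a i) 1 < d / 2 :=
      h.tendsto (Metric.ball_mem_nhds 1 (by positivity))
    filter_upwards [h1] with i hi z hz
    have h2 : d ≤ ‖1 - z‖ := hx hz
    have h3 : 1 - (starRingEnd ℂ) (a i) * z = (1 - z) - (starRingEnd ℂ) (a i - 1) * z := by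
      rw [map_sub, map_one]; ring
    have h4 : ‖(starRingEnd ℂ) (a i - 1) * z‖ ≤ d / 2 := by
      rw [norm_mul, Complex.norm_conj, ← dist_eq_norm]
      have := mem_closedBall_zero_iff.1 (hK1 hz)
      nlinarith [norm_nonneg z, dist_nonneg (x := a i) (y := 1)]
    rw [h3]
    have := norm_sub_norm_le (1 - z) ((starRingEnd ℂ) (a i - 1) * z)
    linarith)
  refine ⟨Bl a ζ, ?_, ?_⟩
  · have h0 := (hunif.hasProd hζK).norm
    have h1 : (fun i => ‖bl (a i) ζ‖) = fun _ => (1 : ℝ) :=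
      funext fun i => norm_bl_eq_one (h.ne i) (h.lt i) hζ
    rw [h1] at h0
    exact h0.unique hasProd_one
  · have hcont : ContinuousOn (Bl a) K := by
      rw [hasProdUniformlyOn_iff_tendstoUniformlyOn] at hunif
      refine hunif.continuousOn (Eventually.of_forall fun s => ?_).frequently
      exact continuousOn_finsetProd _ fun i _ => (h.continuousOn_bl i).mono hK1
    have h1 : Tendsto (fun r : ℝ => (r : ℂ) * ζ) (𝓝[<] 1) (𝓝[K] ζ) := by
      rw [tendsto_nhdsWithin_iff]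
      constructor
      · have : Continuous fun r : ℝ => (r : ℂ) * ζ := by fun_prop
        have h2 := this.tendsto 1
        simp only [Complex.ofReal_one, one_mul] at h2
        exact h2.mono_left nhdsWithin_le_nhds
      · filter_upwards [self_mem_nhdsWithin, mem_nhdsWithin_of_mem_nhds
          (lt_mem_nhds (show (0 : ℝ) < 1 by norm_num))] with r h2 h3
        exact ⟨r, ⟨h3.le, le_of_lt h2⟩, rfl⟩
    exact (hcont ζ hζK).tendsto.comp h1

theorem isInner : IsInner (Bl a) := by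
  refine ⟨h.differentiableOn, ⟨1, fun z hz => h.norm_le hz⟩, ?_⟩
  have hcount : {θ : ℝ | Complex.exp (θ * Complex.I) = 1}.Countable := by
    refine (countable_range (fun n : ℤ => (n : ℝ) * (2 * Real.pi))).mono ?_
    intro θ hθ
    rw [mem_ofPred_eq, Complex.exp_eq_one_iff] at hθ
    obtain ⟨n, hn⟩ := hθ
    refine ⟨n, ?_⟩
    have h1 := congrArg Complex.im hn
    simp at h1
    simp [h1]
  have hae : ∀ᵐ θ : ℝ, θ ∉ {θ : ℝ | Complex.exp (θ * Complex.I) = 1} := hcount.ae_notMem volume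
  filter_upwards [hae] with θ hθ
  exact h.radial_limit (Complex.norm_exp_ofReal_mul_I θ) hθ

/-- lower bound for the product -/
theorem lower {z : ℂ} (hz : ‖z‖ < 1) {c : ℝ}
    (hc : ∀ s : Finset ι, c ≤ ∏ i ∈ s, (1 - dl (a i) z)) : c ≤ ‖Bl a z‖ ^ 2 :=
  ge_of_tendsto (h.hasProd_sq hz) (Eventually.of_forall hc)

/-- upper bound for the product -/
theorem upper {z : ℂ} (hz : ‖z‖ < 1) (s : Finset ι) :
    ‖Bl a z‖ ^ 2 ≤ ∏ i ∈ s, (1 - dl (a i) z) := by
  classical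
  refine le_of_tendsto (h.hasProd_sq hz) ?_
  filter_upwards [eventually_ge_atTop s] with t ht
  rw [← Finset.prod_sdiff ht]
  refine mul_le_of_le_one_left (Finset.prod_nonneg fun i _ => ?_)
    (Finset.prod_le_one (fun i _ => ?_) fun i _ => ?_)
  · linarith [dl_le_one (h.ne i) (h.lt i) hz.le]
  · linarith [dl_le_one (h.ne i) (h.lt i) hz.le]
  · linarith [dl_nonneg (h.lt i) hz.le]

end Zeros

end Pool.Agent.MP193109
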