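import Mathlib

set_option autoImplicit false

open Set Filter Topology MeasureTheory

namespace Pool.Agent.MP193109

/-- A continuity modulus: a continuous, non-decreasing, positive function on `(0,1)`. -/
structure IsModulus (ω : ℝ → ℝ) : Prop where
  cont : ContinuousOn ω (Ioo 0 1)
  mono : MonotoneOn ω (Ioo 0 1)
  pos : ∀ t ∈ Ioo (0 : ℝ) 1, 0 < ω t

/-- `f ∈ B_ω`: `f` is analytic in the unit disc and
`|f'(z)| (1 - |z|) = O(ω(1 - |z|))` as `|z| → 1`. -/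
def InB (ω : ℝ → ℝ) (f : ℂ → ℂ) : Prop :=
  DifferentiableOn ℂ f (Metric.ball 0 1) ∧
    ∃ C r : ℝ, 0 < r ∧ r < 1 ∧ ∀ z : ℂ, r < ‖z‖ → ‖z‖ < 1 →
      ‖deriv f z‖ * (1 - ‖z‖) ≤ C * ω (1 - ‖z‖)

/-- `Θ` is inner: a bounded analytic function in the unit disc whose radial boundary values
`lim_{r → 1} Θ(r e^{iθ})` exist and have modulus `1` for almost every `θ`. -/
def IsInner (Θ : ℂ → ℂ) : Prop :=
  DifferentiableOn ℂ Θ (Metric.ball 0 1) ∧ (∃ C : ℝ, ∀ z : ℂ, ‖z‖ < 1 → ‖Θ z‖ ≤ C) ∧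
    ∀ᵐ θ : ℝ, ∃ w : ℂ, ‖w‖ = 1 ∧
      Tendsto (fun r : ℝ => Θ (r * Complex.exp (θ * Complex.I))) (𝓝[<] 1) (𝓝 w)

/-- `S_ε(f, Θ) < ∞`, i.e. `|f(z)| / ω(1 - |z|)` is bounded on `{z ∈ 𝔻 \ {0} : |Θ(z)| < ε}`. -/
def SFinite (ω : ℝ → ℝ) (f Θ : ℂ → ℂ) (ε : ℝ) : Prop :=
  ∃ C : ℝ, ∀ z : ℂ, z ≠ 0 → ‖z‖ < 1 → ‖Θ z‖ < ε → ‖f z‖ / ω (1 - ‖z‖) ≤ C

/-- Property (P): for every `f ∈ B_ω` and every inner `Θ` the statements
(i) `f Θ ∈ B_ω`, (ii) `S_ε(f, Θ) < ∞` for some `ε ∈ (0,1)`, (iii) `S_ε(f, Θ) < ∞` for every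
`ε ∈ (0,1)` are equivalent. -/
def PropertyP (ω : ℝ → ℝ) : Prop :=
  ∀ f Θ : ℂ → ℂ, InB ω f → IsInner Θ →
    (InB ω (fun z => f z * Θ z) ↔ ∃ ε : ℝ, 0 < ε ∧ ε < 1 ∧ SFinite ω f Θ ε) ∧
    ((∃ ε : ℝ, 0 < ε ∧ ε < 1 ∧ SFinite ω f Θ ε) ↔
      ∀ ε : ℝ, 0 < ε → ε < 1 → SFinite ω f Θ ε)

/-- quasi-concavity with constant `C` -/
def CondA (ω : ℝ → ℝ) (C : ℝ) : Prop :=
  ∀ s t : ℝ, 0 < s → s ≤ t → t ≤ 1 / 2 → ω t / t ≤ C * (ω s / s)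

/-- the fast (Dini) condition with constant `C` -/
def CondB (ω : ℝ → ℝ) (C : ℝ) : Prop :=
  ∀ δ : ℝ, 0 < δ → δ ≤ 1 / 2 →
    ∫⁻ t in Ioo 0 δ, ENNReal.ofReal (ω t / t) ≤ ENNReal.ofReal (C * ω δ)

namespace IsModulus

variable {ω : ℝ → ℝ} (hω : IsModulus ω)
include hω

theorem le {s t : ℝ} (hs : 0 < s) (hst : s ≤ t) (ht : t < 1) : ω s ≤ ω t :=
  hω.mono ⟨hs, hst.trans_lt ht⟩ ⟨hs.trans_le hst, ht⟩ hst

theorem pos' {t : ℝ} (h0 : 0 < t) (h1 : t < 1) : 0 < ω t := hω.pos t ⟨h0, h1⟩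

end IsModulus

/-- the normalised form of membership in `B_ω` -/
theorem InB.bound {ω : ℝ → ℝ} (hω : IsModulus ω) {f : ℂ → ℂ} (hf : InB ω f) {ρ : ℝ} (hρ : 0 < ρ) :
    ∃ C : ℝ, 0 < C ∧ ∀ z : ℂ, ρ ≤ ‖z‖ → ‖z‖ < 1 → ‖deriv f z‖ * (1 - ‖z‖) ≤ C * ω (1 - ‖z‖) := by
  obtain ⟨hd, C, r, hr0, hr1, hC⟩ := hf
  have hda : ContinuousOn (deriv f) (Metric.ball 0 1) :=
    (hd.deriv Metric.isOpen_ball).continuousOn
  obtain ⟨M, hM⟩ := (isCompact_closedBall (0 : ℂ) r).exists_bound_of_continuousOn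
    (hda.mono (Metric.closedBall_subset_ball hr1))
  have hωr : 0 < ω (1 - r) := hω.pos' (by linarith) (by linarith)
  refine ⟨max 1 (max C (|M| / ω (1 - r))), by positivity, ?_⟩
  intro z hz1 hz2
  have hωz : 0 < ω (1 - ‖z‖) := hω.pos' (by linarith) (by linarith)
  rcases lt_or_ge r ‖z‖ with h | h
  · refine (hC z h hz2).trans (mul_le_mul_of_nonneg_right ?_ hωz.le)
    exact (le_max_left _ _).trans (le_max_right _ _)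
  · have h1 : ‖deriv f z‖ ≤ |M| := (hM z (by rwa [mem_closedBall_zero_iff])).trans (le_abs_self M)
    have h2 : ω (1 - r) ≤ ω (1 - ‖z‖) := hω.le (by linarith) (by linarith) (by linarith)
    have h3 : |M| / ω (1 - r) ≤ max 1 (max C (|M| / ω (1 - r))) :=
      (le_max_right _ _).trans (le_max_right _ _)
    calc ‖deriv f z‖ * (1 - ‖z‖) ≤ |M| * 1 := by
          apply mul_le_mul h1 (by linarith [norm_nonneg z]) (by linarith) (abs_nonneg M)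
      _ = |M| / ω (1 - r) * ω (1 - r) := by field_simp
      _ ≤ max 1 (max C (|M| / ω (1 - r))) * ω (1 - ‖z‖) := by
          apply mul_le_mul h3 h2 hωr.le (by positivity)

/-- `S_ε < ∞` in product form -/
theorem SFinite.iff {ω : ℝ → ℝ} (hω : IsModulus ω) {f Θ : ℂ → ℂ} {ε : ℝ} :
    SFinite ω f Θ ε ↔ ∃ C : ℝ, 0 < C ∧ ∀ z : ℂ, z ≠ 0 → ‖z‖ < 1 → ‖Θ z‖ < ε →
      ‖f z‖ ≤ C * ω (1 - ‖z‖) := by
  constructor
  · rintro ⟨C, hC⟩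
    refine ⟨max C 1, by positivity, fun z h0 h1 h2 => ?_⟩
    have hωz : 0 < ω (1 - ‖z‖) := hω.pos' (by linarith) (by have := norm_pos_iff.2 h0; linarith)
    have := hC z h0 h1 h2
    rw [div_le_iff₀ hωz] at this
    exact this.trans (mul_le_mul_of_nonneg_right (le_max_left _ _) hωz.le)
  · rintro ⟨C, -, hC⟩
    refine ⟨C, fun z h0 h1 h2 => ?_⟩
    have hωz : 0 < ω (1 - ‖z‖) := hω.pos' (by linarith) (by have := norm_pos_iff.2 h0; linarith)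
    rw [div_le_iff₀ hωz]
    exact hC z h0 h1 h2

end Pool.Agent.MP193109
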