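import Pool.Agent.MP193109.Blaschke

set_option autoImplicit false

open Set Filter Topology MeasureTheory

namespace Pool.Agent.MP193109

variable {ω : ℝ → ℝ}

theorem inner_id : IsInner (fun z : ℂ => z) := by
  refine ⟨differentiableOn_id, ⟨1, fun z hz => hz.le⟩, Eventually.of_forall fun θ => ?_⟩
  refine ⟨Complex.exp (θ * Complex.I), Complex.norm_exp_ofReal_mul_I θ, ?_⟩
  have : Continuous fun r : ℝ => (r : ℂ) * Complex.exp (θ * Complex.I) := by fun_prop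
  have h2 := this.tendsto 1
  simp only [Complex.ofReal_one, one_mul] at h2
  exact h2.mono_left nhdsWithin_le_nhds

theorem inB_one : InB ω (fun _ => 1) := by
  refine ⟨differentiableOn_const _, 0, 1 / 2, by norm_num, by norm_num, fun z _ _ => ?_⟩
  simp

/-- N1 -/
theorem nec_lin (hω : IsModulus ω) (hP : PropertyP ω) :
    ∃ c : ℝ, 0 < c ∧ ∀ t : ℝ, 0 < t → t ≤ 1 / 2 → t ≤ c * ω t := by
  obtain ⟨h1, _⟩ := hP (fun _ => 1) (fun z => z) inB_one inner_id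
  have hω2 : 0 < ω (1 / 2) := hω.pos' (by norm_num) (by norm_num)
  have hS : SFinite ω (fun _ => 1) (fun z => z) (1 / 2) := by
    refine ⟨1 / ω (1 / 2), fun z hz0 _ hz => ?_⟩
    have hz0' := norm_pos_iff.2 hz0
    rw [norm_one]
    exact one_div_le_one_div_of_le hω2 (hω.le (by norm_num) (by linarith) (by linarith))
  obtain ⟨c, hc, hb⟩ := (h1.2 ⟨1 / 2, by norm_num, by norm_num, hS⟩).bound hω (ρ := 1 / 2)
    (by norm_num)
  refine ⟨c, hc, fun t ht ht2 => ?_⟩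
  have hn : ‖((1 - t : ℝ) : ℂ)‖ = 1 - t := by
    rw [Complex.norm_real, Real.norm_eq_abs, abs_of_nonneg (by linarith)]
  have h2 := hb ((1 - t : ℝ) : ℂ) (by rw [hn]; linarith) (by rw [hn]; linarith)
  have h3 : deriv (fun z : ℂ => (1 : ℂ) * z) ((1 - t : ℝ) : ℂ) = 1 := by simp
  rw [h3, norm_one, one_mul, hn, sub_sub_cancel] at h2
  exact h2

/-- `inf_{s ≤ t} ω(s)/s` -/
noncomputable def mm (ω : ℝ → ℝ) (t : ℝ) : ℝ := sInf ((fun s => ω s / s) '' Ioc 0 t)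

theorem mm_le (hω : IsModulus ω) {s t : ℝ} (hs : 0 < s) (hst : s ≤ t) (ht : t < 1) :
    mm ω t ≤ ω s / s := by
  refine csInf_le ⟨0, ?_⟩ ⟨s, ⟨hs, hst⟩, rfl⟩
  rintro _ ⟨r, hr, rfl⟩
  exact (div_pos (hω.pos' hr.1 (by linarith [hr.2])) hr.1).le

theorem le_mm {t b : ℝ} (ht : 0 < t) (h : ∀ s, 0 < s → s ≤ t → b ≤ ω s / s) : b ≤ mm ω t := by
  refine le_csInf ⟨_, t, ⟨ht, le_rfl⟩, rfl⟩ ?_
  rintro _ ⟨r, hr, rfl⟩
  exact h r hr.1 hr.2

theorem mm_anti (hω : IsModulus ω) {s t : ℝ} (hs : 0 < s) (hst : s ≤ t) (ht : t < 1) :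
    mm ω t ≤ mm ω s :=
  le_mm hs fun _ hr hrs => mm_le hω hr (hrs.trans hst) ht

theorem mm_ge (hω : IsModulus ω) {c : ℝ} (hc : 0 < c)
    (hlin : ∀ t : ℝ, 0 < t → t ≤ 1 / 2 → t ≤ c * ω t) {t : ℝ} (ht : 0 < t) (ht2 : t ≤ 1 / 2) :
    1 / c ≤ mm ω t := by
  refine le_mm ht fun s hs hst => ?_
  rw [div_le_div_iff₀ hc hs, one_mul, mul_comm]
  exact hlin s hs (by linarith)

/-- the selection of scales when (A) fails -/
theorem nec_scale (hω : IsModulus ω) {c : ℝ} (hc : 0 < c)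
    (hlin : ∀ t : ℝ, 0 < t → t ≤ 1 / 2 → t ≤ c * ω t) (hA : ¬ ∃ C, CondA ω C) (N : ℕ) (hN : 1 ≤ N)
    {η : ℝ} (hη : 0 < η) :
    ∃ t : ℝ, 0 < t ∧ t < η ∧ t < 1 / 8 ∧ (N : ℝ) ^ 2 * (t * mm ω t) ≤ ω (t / N) := by
  have hN0 : (0 : ℝ) < N := by exact_mod_cast hN
  have hω2 : 0 < ω (1 / 2) := hω.pos' (by norm_num) (by norm_num)
  set η' := min η (1 / 8) with hη'
  have hη'0 : 0 < η' := lt_min hη (by norm_num)
  set L : ℝ := max ((N : ℝ) ^ 3) (2 * (N * ω (1 / 2) * c / η')) with hL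
  have hL0 : 0 < L := lt_max_of_lt_left (by positivity)
  have hnA : ¬ CondA ω L := fun h => hA ⟨L, h⟩
  unfold CondA at hnA
  push Not at hnA
  obtain ⟨s, t', hs, hst, ht', hlt⟩ := hnA
  have ht'0 : 0 < t' := hs.trans_le hst
  have h1 : L * mm ω t' < ω t' / t' :=
    (mul_le_mul_of_nonneg_left (mm_le hω hs hst (by linarith)) hL0.le).trans_lt hlt
  have h2 : L * (1 / c) < ω t' / t' :=
    (mul_le_mul_of_nonneg_left (mm_ge hω hc hlin ht'0 ht') hL0.le).trans_lt h1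
  have h3 : ω t' ≤ ω (1 / 2) := hω.le ht'0 ht' (by norm_num)
  -- `t'` is small
  have h4 : t' * L < c * ω (1 / 2) := by
    rw [lt_div_iff₀ ht'0] at h2
    have : L * (1 / c) * t' * c < ω t' * c := mul_lt_mul_of_pos_right h2 hc
    have e : L * (1 / c) * t' * c = t' * L := by field_simp
    rw [e] at this
    nlinarith
  have h5 : N * t' < η' := by
    have h6 : 2 * (N * ω (1 / 2) * c / η') ≤ L := le_max_right _ _
    have h7 : t' * (2 * (N * ω (1 / 2) * c / η')) < c * ω (1 / 2) :=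
      (mul_le_mul_of_nonneg_left h6 ht'0.le).trans_lt h4
    have e : t' * (2 * (N * ω (1 / 2) * c / η')) = c * ω (1 / 2) * (2 * (N * t') / η') := by
      field_simp
    rw [e] at h7
    have h8 : 2 * (N * t') / η' < 1 := by
      by_contra hcon
      push Not at hcon
      have : 0 < c * ω (1 / 2) := by positivity
      nlinarith
    rw [div_lt_one hη'0] at h8
    nlinarith [mul_pos hN0 ht'0]
  have hN1 : (1 : ℝ) ≤ N := by exact_mod_cast hN
  refine ⟨N * t', by positivity, h5.trans_le (min_le_left _ _), h5.trans_le (min_le_right _ _), ?_⟩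
  have h6 : (N : ℝ) * t' / N = t' := by field_simp
  rw [h6]
  have h7 : t' ≤ N * t' := by nlinarith
  have h8 : mm ω (N * t') ≤ mm ω t' := mm_anti hω ht'0 h7
    (by have := h5.trans_le (min_le_right η (1 / 8)); linarith)
  have h9 : 0 ≤ mm ω t' := (by positivity : (0 : ℝ) ≤ 1 / c).trans (mm_ge hω hc hlin ht'0 ht')
  have h10 : (N : ℝ) ^ 3 ≤ L := le_max_left _ _
  calc (N : ℝ) ^ 2 * (N * t' * mm ω (N * t')) ≤ (N : ℝ) ^ 2 * (N * t' * mm ω t') := by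
        gcongr
    _ = t' * ((N : ℝ) ^ 3 * mm ω t') := by ring
    _ ≤ t' * (L * mm ω t') := by gcongr
    _ ≤ t' * (ω t' / t') := mul_le_mul_of_nonneg_left h1.le ht'0.le
    _ = ω t' := by field_simp

/-- the data of the counterexample when (A) fails -/
structure Sq (ω : ℝ → ℝ) (c : ℝ) (k₀ : ℕ) (t : ℕ → ℝ) : Prop where
  c0 : 0 < c
  lin : ∀ s : ℝ, 0 < s → s ≤ 1 / 2 → s ≤ c * ω s
  hk : 1 ≤ k₀
  hk' : ω (1 / 2) ≤ k₀
  pos : ∀ k, 0 < t k
  lt : ∀ k, t k < 1 / 8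
  dec : ∀ k, t (k + 1) ≤ (1 / 4) ^ (k + 6) * t k
  big : ∀ k : ℕ, (((k + k₀ : ℕ) : ℝ)) ^ 2 * (t k * mm ω (t k)) ≤ ω (t k / ((k + k₀ : ℕ) : ℝ))

theorem exists_sq (hω : IsModulus ω) {c : ℝ} (hc : 0 < c)
    (hlin : ∀ t : ℝ, 0 < t → t ≤ 1 / 2 → t ≤ c * ω t) (hA : ¬ ∃ C, CondA ω C) :
    ∃ k₀ t, Sq ω c k₀ t := by
  obtain ⟨k₁, hk₁⟩ := exists_nat_ge (ω (1 / 2))
  set k₀ := k₁ + 1 with hk₀
  have hex : ∀ (k : ℕ) (η : ℝ), ∃ t : ℝ, 0 < η → 0 < t ∧ t < η ∧ t < 1 / 8 ∧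
      (((k + k₀ : ℕ) : ℝ)) ^ 2 * (t * mm ω t) ≤ ω (t / ((k + k₀ : ℕ) : ℝ)) := by
    intro k η
    by_cases hη : 0 < η
    · obtain ⟨t, ht⟩ := nec_scale hω hc hlin hA (k + k₀) (by omega) hη
      exact ⟨t, fun _ => ht⟩
    · exact ⟨0, fun h => absurd h hη⟩
  choose T hT using hex
  set t : ℕ → ℝ := fun k => Nat.rec (T 0 1) (fun k tk => T (k + 1) ((1 / 4) ^ (k + 6) * tk)) k
    with ht
  have h0 : t 0 = T 0 1 := rfl
  have hs : ∀ k, t (k + 1) = T (k + 1) ((1 / 4) ^ (k + 6) * t k) := fun k => rfl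
  have hpos : ∀ k, 0 < t k := by
    intro k
    induction k with
    | zero => rw [h0]; exact (hT 0 1 one_pos).1
    | succ k ih => rw [hs]; exact (hT (k + 1) _ (by positivity)).1
  refine ⟨k₀, t, ⟨hc, hlin, by omega, by rw [hk₀]; push_cast; linarith, hpos, ?_, ?_, ?_⟩⟩
  · intro k
    cases k with
    | zero => rw [h0]; exact (hT 0 1 one_pos).2.2.1
    | succ k => rw [hs]; exact (hT (k + 1) _ (by have := hpos k; positivity)).2.2.1
  · intro k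
    rw [hs]
    exact (hT (k + 1) _ (by have := hpos k; positivity)).2.1.le
  · intro k
    cases k with
    | zero => rw [h0]; exact (hT 0 1 one_pos).2.2.2
    | succ k => rw [hs]; exact (hT (k + 1) _ (by have := hpos k; positivity)).2.2.2

end Pool.Agent.MP193109
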