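import Pool.Agent.MP193109.NecA1

set_option autoImplicit false

open Set Filter Topology MeasureTheory

namespace Pool.Agent.MP193109

variable {ω : ℝ → ℝ}

theorem one_sub_sum_le_prod {ι : Type*} (s : Finset ι) {d : ι → ℝ} (h0 : ∀ i, 0 ≤ d i)
    (h1 : ∀ i, d i ≤ 1) : 1 - ∑ i ∈ s, d i ≤ ∏ i ∈ s, (1 - d i) := by
  classical
  induction s using Finset.induction_on with
  | empty => simp
  | insert a s ha ih =>
    rw [Finset.sum_insert ha, Finset.prod_insert ha]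
    have hp : ∏ i ∈ s, (1 - d i) ≤ 1 :=
      Finset.prod_le_one (fun i _ => by linarith [h1 i]) fun i _ => by linarith [h0 i]
    have := h0 a
    nlinarith

/-- localisation from a lower bound of `δ` -/
theorem loc_of_dl {a z : ℂ} (ha : ‖a‖ < 1) (hz : ‖z‖ < 1) {η : ℝ} (hη : 0 < η)
    (h : η ≤ dl a z) :
    η * (1 - ‖a‖) ≤ 4 * (1 - ‖z‖) ∧ η * (1 - ‖z‖) ≤ 4 * (1 - ‖a‖) ∧
      η * ‖1 - (starRingEnd ℂ) a * z‖ ^ 2 ≤ 4 * (1 - ‖a‖) * (1 - ‖z‖) := by
  have hD := den_pos ha hz.le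
  have hD1 := den_ge a z
  set D := ‖1 - (starRingEnd ℂ) a * z‖ with hDdef
  have hna := norm_nonneg a
  have hnz := norm_nonneg z
  have h1 : η * D ^ 2 ≤ 4 * (1 - ‖a‖) * (1 - ‖z‖) := by
    unfold dl at h
    rw [← hDdef, le_div_iff₀ (by positivity)] at h
    refine h.trans ?_
    have e : (1 - ‖a‖ ^ 2) * (1 - ‖z‖ ^ 2) = ((1 - ‖a‖) * (1 - ‖z‖)) * ((1 + ‖a‖) * (1 + ‖z‖)) := by
      ring
    rw [e]
    have e2 : (1 + ‖a‖) * (1 + ‖z‖) ≤ 4 := by nlinarith
    have e3 : 0 ≤ (1 - ‖a‖) * (1 - ‖z‖) := mul_nonneg (by linarith) (by linarith)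
    nlinarith
  have ha1 : 0 < 1 - ‖a‖ := by linarith
  have hz1 : 0 < 1 - ‖z‖ := by linarith
  have hDa : 1 - ‖a‖ ≤ D := by nlinarith
  have hDz : 1 - ‖z‖ ≤ D := by nlinarith
  refine ⟨?_, ?_, h1⟩
  · have h2 : (1 - ‖a‖) ^ 2 ≤ D ^ 2 := pow_le_pow_left₀ ha1.le hDa 2
    have h3 : η * (1 - ‖a‖) ^ 2 ≤ 4 * (1 - ‖a‖) * (1 - ‖z‖) :=
      (mul_le_mul_of_nonneg_left h2 hη.le).trans h1
    have h4 : (η * (1 - ‖a‖)) * (1 - ‖a‖) ≤ (4 * (1 - ‖z‖)) * (1 - ‖a‖) := by nlinarith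
    exact le_of_mul_le_mul_right h4 ha1
  · have h2 : (1 - ‖z‖) ^ 2 ≤ D ^ 2 := pow_le_pow_left₀ hz1.le hDz 2
    have h3 : η * (1 - ‖z‖) ^ 2 ≤ 4 * (1 - ‖a‖) * (1 - ‖z‖) :=
      (mul_le_mul_of_nonneg_left h2 hη.le).trans h1
    have h4 : (η * (1 - ‖z‖)) * (1 - ‖z‖) ≤ (4 * (1 - ‖a‖)) * (1 - ‖z‖) := by nlinarith
    exact le_of_mul_le_mul_right h4 hz1

theorem dist_le_den {a z : ℂ} (ha : ‖a‖ < 1) (hz : ‖z‖ < 1) :
    ‖a - z‖ ≤ ‖1 - (starRingEnd ℂ) a * z‖ := by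
  have h := norm_identity a z
  have hna := norm_nonneg a
  have hnz := norm_nonneg z
  have h1 : 0 ≤ (1 - ‖a‖ ^ 2) * (1 - ‖z‖ ^ 2) := mul_nonneg (by nlinarith) (by nlinarith)
  exact abs_le_of_sq_le_sq' (by linarith) (norm_nonneg _) |>.2

theorem geo_sum (s : Finset ℕ) (K : ℕ) :
    ∑ i ∈ s, (if K ≤ i then (1 / 2 : ℝ) ^ (i + 3) else 0) ≤ (1 / 2) ^ (K + 2) := by
  have hsum : HasSum (fun i : ℕ => (1 / 2 : ℝ) ^ (K + 3) * (1 / 2) ^ i)
      ((1 / 2 : ℝ) ^ (K + 3) * 2) := (hasSum_geometric_two).mul_left _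
  have hf : ∀ i : ℕ, 0 ≤ (1 / 2 : ℝ) ^ (K + 3) * (1 / 2) ^ i := fun i => by positivity
  have h1 : ∑ i ∈ s, (if K ≤ i then (1 / 2 : ℝ) ^ (i + 3) else 0) ≤
      ∑ i ∈ (s.filter (K ≤ ·)).image (· - K), (1 / 2 : ℝ) ^ (K + 3) * (1 / 2) ^ i := by
    rw [Finset.sum_image]
    · rw [← Finset.sum_filter]
      refine Finset.sum_le_sum fun i hi => ?_
      have hi2 := (Finset.mem_filter.1 hi).2
      have e : i + 3 = (K + 3) + (i - K) := by omega
      rw [e, pow_add]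
    · intro x hx y hy hxy
      have h1 := (Finset.mem_filter.1 (Finset.mem_coe.1 hx)).2
      have h2 := (Finset.mem_filter.1 (Finset.mem_coe.1 hy)).2
      simp only at hxy
      omega
  refine h1.trans ((sum_le_hasSum _ (fun i _ => hf i) hsum).trans_eq ?_)
  rw [pow_succ (1 / 2 : ℝ) (K + 2)]
  ring

/-- the angles -/
noncomputable def th (ω : ℝ → ℝ) (k₀ : ℕ) (t : ℕ → ℝ) (k : ℕ) : ℝ :=
  ((k + k₀ : ℕ) : ℝ) * (t k * mm ω (t k))

/-- the zeros -/
noncomputable def az (ω : ℝ → ℝ) (k₀ : ℕ) (t : ℕ → ℝ) (k : ℕ) : ℂ :=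
  ((1 - t k : ℝ) : ℂ) * Complex.exp (th ω k₀ t k * Complex.I)

namespace Sq

variable {c : ℝ} {k₀ : ℕ} {t : ℕ → ℝ} (h : Sq ω c k₀ t)
include h

theorem N_pos (k : ℕ) : (1 : ℝ) ≤ ((k + k₀ : ℕ) : ℝ) := by
  have := h.hk
  exact_mod_cast (by omega : 1 ≤ k + k₀)

theorem W_ge (hω : IsModulus ω) (k : ℕ) : t k / c ≤ t k * mm ω (t k) := by
  have h1 := mm_ge hω h.c0 h.lin (h.pos k) (by linarith [h.lt k])
  rw [div_eq_mul_one_div]
  exact mul_le_mul_of_nonneg_left h1 (h.pos k).le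

theorem W_pos (hω : IsModulus ω) (k : ℕ) : 0 < t k * mm ω (t k) :=
  lt_of_lt_of_le (div_pos (h.pos k) h.c0) (h.W_ge hω k)

theorem th_pos (hω : IsModulus ω) (k : ℕ) : 0 < th ω k₀ t k :=
  mul_pos (by linarith [h.N_pos k]) (h.W_pos hω k)

theorem th_le (hω : IsModulus ω) (k : ℕ) : th ω k₀ t k ≤ ω (1 / 2) / ((k + k₀ : ℕ) : ℝ) := by
  have hN := h.N_pos k
  have h1 := h.big k
  have h2 : ω (t k / ((k + k₀ : ℕ) : ℝ)) ≤ ω (1 / 2) := by
    have h3 : t k / ((k + k₀ : ℕ) : ℝ) ≤ t k := div_le_self (h.pos k).le hN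
    exact hω.le (div_pos (h.pos k) (by linarith)) (by linarith [h.lt k]) (by norm_num)
  unfold th
  rw [le_div_iff₀ (by linarith)]
  nlinarith

theorem th_le_one (hω : IsModulus ω) (k : ℕ) : th ω k₀ t k ≤ 1 := by
  refine (h.th_le hω k).trans ?_
  have hN := h.N_pos k
  rw [div_le_one (by linarith)]
  refine h.hk'.trans ?_
  push_cast
  linarith [(Nat.cast_nonneg k : (0 : ℝ) ≤ k)]

theorem t_small (k : ℕ) : t k ≤ (1 / 4) ^ k := by
  induction k with
  | zero => simpa using (by linarith [h.lt 0] : t 0 ≤ 1)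
  | succ k ih =>
    have h1 := h.dec k
    have h2 : ((1 : ℝ) / 4) ^ (k + 6) ≤ 1 / 4 := by
      calc ((1 : ℝ) / 4) ^ (k + 6) ≤ (1 / 4) ^ 1 :=
            pow_le_pow_of_le_one (by norm_num) (by norm_num) (by omega)
        _ = 1 / 4 := pow_one _
    have h3 := h.pos k
    calc t (k + 1) ≤ (1 / 4) ^ (k + 6) * t k := h1
      _ ≤ 1 / 4 * (1 / 4) ^ k := mul_le_mul h2 ih h3.le (by norm_num)
      _ = (1 / 4) ^ (k + 1) := by ring

theorem t_anti : Antitone t := by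
  refine antitone_nat_of_succ_le fun k => ?_
  have h1 := h.dec k
  have h2 : ((1 : ℝ) / 4) ^ (k + 6) ≤ 1 := pow_le_one₀ (by norm_num) (by norm_num)
  have h3 := h.pos k
  nlinarith

theorem t_dec {j k : ℕ} (hjk : j < k) : t k ≤ (1 / 4) ^ (k + 5) * t j := by
  obtain ⟨m, rfl⟩ : ∃ m, k = m + 1 := ⟨k - 1, by omega⟩
  have h1 := h.dec m
  have h2 : t m ≤ t j := h.t_anti (by omega)
  exact h1.trans (mul_le_mul_of_nonneg_left h2 (by positivity))

theorem az_norm (k : ℕ) : ‖az ω k₀ t k‖ = 1 - t k := by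
  unfold az
  rw [norm_mul, Complex.norm_exp_ofReal_mul_I, mul_one, Complex.norm_real, Real.norm_eq_abs,
    abs_of_nonneg (by linarith [h.lt k])]

theorem az_dist (hω : IsModulus ω) (k : ℕ) : ‖1 - az ω k₀ t k‖ ≤ t k + th ω k₀ t k := by
  have e : 1 - az ω k₀ t k = (t k : ℂ) * Complex.exp (th ω k₀ t k * Complex.I) -
      (Complex.exp (Complex.I * (th ω k₀ t k)) - 1) := by
    unfold az
    rw [mul_comm Complex.I]
    push_cast
    ring
  rw [e]
  refine (norm_sub_le _ _).trans ?_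
  have h1 := Real.norm_exp_I_mul_ofReal_sub_one_le (x := th ω k₀ t k)
  rw [norm_mul, Complex.norm_exp_ofReal_mul_I, mul_one, Complex.norm_real, Real.norm_eq_abs,
    abs_of_pos (h.pos k)]
  rw [Real.norm_eq_abs, abs_of_pos (h.th_pos hω k)] at h1
  linarith

theorem zeros (hω : IsModulus ω) : Zeros (az ω k₀ t) where
  ne k := by
    rw [← norm_pos_iff, h.az_norm]
    linarith [h.lt k]
  lt k := by
    rw [h.az_norm]
    linarith [h.pos k]
  summable := by
    refine Summable.of_nonneg_of_le (fun k => ?_) (fun k => ?_)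
      (summable_geometric_of_lt_one (r := 1 / 4) (by norm_num) (by norm_num))
    · rw [h.az_norm]; linarith [h.pos k]
    · rw [h.az_norm]; linarith [h.t_small k]
  tendsto := by
    rw [Nat.cofinite_eq_atTop]
    have h1 : Tendsto (fun k : ℕ => (1 / 4 : ℝ) ^ k + ω (1 / 2) / ((k + k₀ : ℕ) : ℝ)) atTop (𝓝 0) := by
      have e1 : Tendsto (fun k : ℕ => (1 / 4 : ℝ) ^ k) atTop (𝓝 0) :=
        tendsto_pow_atTop_nhds_zero_of_lt_one (by norm_num) (by norm_num)
      have e2 : Tendsto (fun k : ℕ => ω (1 / 2) / ((k + k₀ : ℕ) : ℝ)) atTop (𝓝 0) := by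
        refine Tendsto.div_atTop tendsto_const_nhds ?_
        exact (tendsto_natCast_atTop_atTop).comp (tendsto_add_atTop_nat k₀)
      simpa using e1.add e2
    rw [tendsto_iff_norm_sub_tendsto_zero]
    refine squeeze_zero (fun k => norm_nonneg _) (fun k => ?_) h1
    rw [norm_sub_rev]
    exact (h.az_dist hω k).trans (add_le_add (h.t_small k) (h.th_le hω k))

/-- thinness -/
theorem thin (hω : IsModulus ω) {j k : ℕ} (hjk : j < k) {z : ℂ} (hz : ‖z‖ < 1)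
    (hj : (1 / 2 : ℝ) ^ (k + 3) < dl (az ω k₀ t j) z) :
    dl (az ω k₀ t k) z ≤ (1 / 2) ^ (k + 3) := by
  by_contra hcon
  push Not at hcon
  set η := (1 / 2 : ℝ) ^ (k + 3) with hη
  set η' := min (dl (az ω k₀ t j) z) (dl (az ω k₀ t k) z) with hη'
  have hη0 : 0 < η := by positivity
  have hlt : η < η' := lt_min hj hcon
  have h1 := loc_of_dl ((h.zeros hω).lt j) hz (hη0.trans hlt) (min_le_left _ _)
  have h2 := loc_of_dl ((h.zeros hω).lt k) hz (hη0.trans hlt) (min_le_right _ _)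
  rw [h.az_norm] at h1 h2
  have h3 := h1.1
  have h4 := h2.2.1
  rw [sub_sub_cancel] at h3 h4
  have h5 := h.t_dec hjk
  have h6 := h.pos j
  have h7 : η' ^ 2 * t j ≤ 16 * t k := by
    have : η' * (η' * t j) ≤ η' * (4 * (1 - ‖z‖)) :=
      mul_le_mul_of_nonneg_left h3 (hη0.trans hlt).le
    nlinarith
  have h8 : η ^ 2 = (1 / 4) ^ (k + 3) := by
    rw [hη, ← pow_mul, mul_comm, pow_mul]; norm_num
  have h9 : 16 * ((1 / 4 : ℝ) ^ (k + 5)) = (1 / 4) ^ (k + 3) := by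
    rw [pow_add, pow_add]; ring
  have h10 : η ^ 2 < η' ^ 2 := pow_lt_pow_left₀ hlt hη0.le (by norm_num)
  have h11 : 16 * t k ≤ η ^ 2 * t j := by
    rw [h8, ← h9]; linarith
  nlinarith

/-- at most one index is exceptional -/
theorem exceptional (hω : IsModulus ω) {z : ℂ} (hz : ‖z‖ < 1) {k₁ : ℕ}
    (hk₁ : (1 / 2 : ℝ) ^ (k₁ + 3) < dl (az ω k₀ t k₁) z) (i : ℕ) (hi : i ≠ k₁) :
    dl (az ω k₀ t i) z ≤ (1 / 2) ^ (i + 3) ∧ dl (az ω k₀ t i) z ≤ (1 / 2) ^ (k₁ + 3) := by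
  rcases lt_or_gt_of_ne hi with hlt | hgt
  · have h1 : dl (az ω k₀ t i) z ≤ (1 / 2) ^ (k₁ + 3) := by
      by_contra hcon
      push Not at hcon
      exact absurd (h.thin hω hlt hz hcon) (not_le.2 hk₁)
    refine ⟨h1.trans ?_, h1⟩
    exact pow_le_pow_of_le_one (by norm_num) (by norm_num) (by omega)
  · have h2 : (1 / 2 : ℝ) ^ (i + 3) ≤ (1 / 2) ^ (k₁ + 3) :=
      pow_le_pow_of_le_one (by norm_num) (by norm_num) (by omega)
    have h1 := h.thin hω hgt hz (h2.trans_lt hk₁)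
    exact ⟨h1, h1.trans h2⟩

theorem exists_exc (hω : IsModulus ω) {z : ℂ} (hz : ‖z‖ < 1) :
    ∃ k₁ : ℕ, ∀ i, i ≠ k₁ → dl (az ω k₀ t i) z ≤ (1 / 2) ^ (i + 3) := by
  by_cases hex : ∃ k₁, (1 / 2 : ℝ) ^ (k₁ + 3) < dl (az ω k₀ t k₁) z
  · obtain ⟨k₁, hk₁⟩ := hex
    exact ⟨k₁, fun i hi => (h.exceptional hω hz hk₁ i hi).1⟩
  · push Not at hex
    exact ⟨0, fun i _ => hex i⟩

/-- if all `δ_i(z)` are small then the product is close to one -/
theorem prod_lower (hω : IsModulus ω) {z : ℂ} (hz : ‖z‖ < 1) {η : ℝ} (hη : 0 ≤ η)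
    (hall : ∀ i, dl (az ω k₀ t i) z ≤ η) (K : ℕ) :
    1 - ((K + 1) * η + (1 / 2) ^ (K + 2)) ≤ ‖Bl (az ω k₀ t) z‖ ^ 2 := by
  classical
  have hZ := h.zeros hω
  refine hZ.lower hz fun s => ?_
  refine le_trans ?_ (one_sub_sum_le_prod s (fun i => dl_nonneg (hZ.lt i) hz.le)
    fun i => dl_le_one (hZ.ne i) (hZ.lt i) hz.le)
  obtain ⟨k₁, hk₁⟩ := h.exists_exc hω hz
  have h1 : ∑ i ∈ s, dl (az ω k₀ t i) z ≤ ∑ i ∈ s, ((if i < K then η else 0) +
      (if i = k₁ then η else 0) + (if K ≤ i then (1 / 2 : ℝ) ^ (i + 3) else 0)) := by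
    refine Finset.sum_le_sum fun i _ => ?_
    have hp : (0 : ℝ) < (1 / 2) ^ (i + 3) := by positivity
    rcases lt_or_ge i K with hi | hi
    · rw [if_pos hi, if_neg (not_le.2 hi)]
      have := hall i
      split_ifs <;> linarith
    · rw [if_neg (not_lt.2 hi), if_pos hi]
      by_cases hik : i = k₁
      · rw [if_pos hik]
        have := hall i
        linarith
      · rw [if_neg hik]
        have := hk₁ i hik
        linarith
  rw [Finset.sum_add_distrib, Finset.sum_add_distrib] at h1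
  have h2 : ∑ i ∈ s, (if i < K then η else 0) ≤ K * η := by
    rw [← Finset.sum_filter, Finset.sum_const, nsmul_eq_mul]
    refine mul_le_mul_of_nonneg_right ?_ hη
    have : (s.filter (· < K)).card ≤ (Finset.range K).card :=
      Finset.card_le_card fun i hi => Finset.mem_range.2 (Finset.mem_filter.1 hi).2
    rw [Finset.card_range] at this
    exact_mod_cast this
  have h3 : ∑ i ∈ s, (if i = k₁ then η else 0) ≤ η := by
    rw [Finset.sum_ite_eq']
    split_ifs <;> linarith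
  have h4 := geo_sum s K
  nlinarith

/-- the condition (iii) -/
theorem cond_iii (hω : IsModulus ω) {ε : ℝ} (hε : 0 < ε) (hε1 : ε < 1) :
    SFinite ω (fun z => 1 - z) (Bl (az ω k₀ t)) ε := by
  rw [SFinite.iff hω]
  have hZ := h.zeros hω
  have hε2 : 0 < 1 - ε ^ 2 := by nlinarith
  obtain ⟨K, hK⟩ := exists_pow_lt_of_lt_one (show (0 : ℝ) < (1 - ε ^ 2) / 4 by positivity)
    (show (1 / 2 : ℝ) < 1 by norm_num)
  set η : ℝ := (1 - ε ^ 2) / (4 * (K + 1)) with hη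
  have hη0 : 0 < η := by positivity
  -- every point of the level set is close to a zero
  have hnear : ∀ z : ℂ, ‖z‖ < 1 → ‖Bl (az ω k₀ t) z‖ < ε → ∃ k, η < dl (az ω k₀ t k) z := by
    intro z hz hlt
    by_contra hcon
    push Not at hcon
    have h1 := h.prod_lower hω hz hη0.le hcon K
    have h2 : (K + 1) * η = (1 - ε ^ 2) / 4 := by rw [hη]; field_simp
    have h3 : ((1 : ℝ) / 2) ^ (K + 2) ≤ (1 / 2) ^ K :=
      pow_le_pow_of_le_one (by norm_num) (by norm_num) (by omega)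
    have h4 : ‖Bl (az ω k₀ t) z‖ ^ 2 < ε ^ 2 := pow_lt_pow_left₀ hlt (norm_nonneg _) (by norm_num)
    rw [h2] at h1
    linarith
  -- the constants
  obtain ⟨k₂, hk₂⟩ := exists_nat_ge (4 / η)
  have hη1 : η ≤ 1 := by
    rw [hη, div_le_one (by positivity)]
    nlinarith [(Nat.cast_nonneg K : (0 : ℝ) ≤ K)]
  have hx₂ : 0 < η * t k₂ / 4 := by have := h.pos k₂; positivity
  have hx₂' : η * t k₂ / 4 < 1 := by have := h.pos k₂; have := h.lt k₂; nlinarith
  have hω₀ : 0 < ω (η * t k₂ / 4) := hω.pos' hx₂ hx₂'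
  have hc := h.c0
  refine ⟨(1 + c + 4 * c / η) + 2 / ω (η * t k₂ / 4), by positivity, fun z hz0 hz1 hΘ => ?_⟩
  have hzpos := norm_pos_iff.2 hz0
  obtain ⟨k, hk⟩ := hnear z hz1 hΘ
  have hloc := loc_of_dl (hZ.lt k) hz1 hη0 hk.le
  rw [h.az_norm, sub_sub_cancel] at hloc
  obtain ⟨l1, l2, l3⟩ := hloc
  set x := 1 - ‖z‖ with hx
  have hx0 : 0 < x := by linarith
  have hx1 : x < 1 := by linarith
  have hωx : 0 < ω x := hω.pos' hx0 hx1
  have htk := h.pos k
  have htx : η * t k / 4 ≤ x := by linarith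
  have hpos1 : 0 ≤ 1 + c + 4 * c / η := by positivity
  have hpos2 : 0 ≤ 2 / ω (η * t k₂ / 4) := by positivity
  rcases lt_or_ge k k₂ with hkk | hkk
  · -- finitely many zeros
    have h1 : t k₂ ≤ t k := h.t_anti hkk.le
    have h2 : ω (η * t k₂ / 4) ≤ ω x := hω.le hx₂ (le_trans (by nlinarith) htx) hx1
    have h3 : ‖1 - z‖ ≤ 2 := by
      refine (norm_sub_le _ _).trans ?_
      rw [norm_one]; linarith
    have h4 : 2 ≤ 2 / ω (η * t k₂ / 4) * ω x := by
      rw [div_mul_eq_mul_div, le_div_iff₀ hω₀]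
      linarith
    have h5 : 0 ≤ (1 + c + 4 * c / η) * ω x := by positivity
    nlinarith
  · -- the main case
    have hN : 4 / η ≤ ((k + k₀ : ℕ) : ℝ) := by
      refine hk₂.trans ?_
      exact_mod_cast (by omega : k₂ ≤ k + k₀)
    have hN1 := h.N_pos k
    set N : ℝ := ((k + k₀ : ℕ) : ℝ) with hNdef
    have hN0 : 0 < N := by linarith
    have h1 : t k / N ≤ η * t k / 4 := by
      rw [div_le_iff₀ hη0] at hN
      rw [div_le_div_iff₀ hN0 (by norm_num)]
      nlinarith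
    have h2 : N ^ 2 * (t k * mm ω (t k)) ≤ ω x :=
      (h.big k).trans (hω.le (by positivity) (h1.trans htx) hx1)
    set W := t k * mm ω (t k) with hW
    have hW0 : 0 < W := h.W_pos hω k
    have hWt : t k ≤ c * W := by
      have := h.W_ge hω k
      rw [div_le_iff₀ hc] at this
      linarith
    -- the distance
    have h3 : ‖az ω k₀ t k - z‖ ≤ 4 * t k / η := by
      refine (dist_le_den (hZ.lt k) hz1).trans ?_
      refine abs_le_of_sq_le_sq' ?_ (by positivity) |>.2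
      have h4 : η * ‖1 - (starRingEnd ℂ) (az ω k₀ t k) * z‖ ^ 2 * η ≤ 16 * t k ^ 2 := by
        nlinarith
      rw [div_pow, le_div_iff₀ (by positivity)]
      nlinarith
    have h4 : ‖1 - z‖ ≤ t k + th ω k₀ t k + 4 * t k / η := by
      have e : (1 : ℂ) - z = (1 - az ω k₀ t k) + (az ω k₀ t k - z) := by ring
      rw [e]
      exact (norm_add_le _ _).trans (add_le_add (h.az_dist hω k) h3)
    have h5 : th ω k₀ t k = N * W := rfl
    rw [h5] at h4
    have h6 : 4 * t k / η ≤ 4 * c / η * W := by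
      rw [div_mul_eq_mul_div]
      refine div_le_div_of_nonneg_right ?_ hη0.le
      nlinarith
    have h7 : ‖1 - z‖ ≤ (1 + c + 4 * c / η) * (N ^ 2 * W) := by
      have e1 : N * W ≤ N ^ 2 * W := by
        have : N * W * 1 ≤ N * W * N := mul_le_mul_of_nonneg_left hN1 (by positivity)
        nlinarith
      have e2 : W ≤ N ^ 2 * W := by
        have : (1 : ℝ) ≤ N ^ 2 := by nlinarith
        nlinarith
      have e3 : c * W ≤ c * (N ^ 2 * W) := mul_le_mul_of_nonneg_left e2 hc.le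
      have e4 : 4 * c / η * W ≤ 4 * c / η * (N ^ 2 * W) :=
        mul_le_mul_of_nonneg_left e2 (by positivity)
      nlinarith
    have h8 : (1 + c + 4 * c / η) * (N ^ 2 * W) ≤ (1 + c + 4 * c / η) * ω x :=
      mul_le_mul_of_nonneg_left h2 hpos1
    have h9 : 0 ≤ 2 / ω (η * t k₂ / 4) * ω x := by positivity
    nlinarith

end Sq

/-- the maximum principle for functions in `B_ω` -/
theorem deriv_le_mm (hω : IsModulus ω) {g : ℂ → ℂ} (hg : InB ω g) :
    ∃ K : ℝ, 0 < K ∧ ∀ (z : ℂ) (s : ℝ), 0 < s → s ≤ 1 / 2 → s ≤ 1 - ‖z‖ →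
      ‖deriv g z‖ ≤ K * mm ω s := by
  obtain ⟨K, hK, hb⟩ := hg.bound hω (ρ := 1 / 2) (by norm_num)
  refine ⟨K, hK, fun z s hs hs2 hsz => ?_⟩
  have key : ∀ r : ℝ, 0 < r → r ≤ s → ‖deriv g z‖ ≤ K * (ω r / r) := by
    intro r hr hrs
    have hda : DifferentiableOn ℂ (deriv g) (Metric.ball 0 1) := hg.1.deriv Metric.isOpen_ball
    have hsub : Metric.closedBall (0 : ℂ) (1 - r) ⊆ Metric.ball 0 1 :=
      Metric.closedBall_subset_ball (by linarith)
    have hd : DiffContOnCl ℂ (deriv g) (Metric.ball 0 (1 - r)) := by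
      refine DifferentiableOn.diffContOnCl (hda.mono ?_)
      exact Metric.closure_ball_subset_closedBall.trans hsub
    refine Complex.norm_le_of_forall_mem_frontier_norm_le Metric.isBounded_ball hd
      (fun w hw => ?_) ?_
    · rw [frontier_ball (0 : ℂ) (by linarith : 1 - r ≠ 0), mem_sphere_zero_iff_norm] at hw
      have h1 := hb w (by rw [hw]; linarith) (by rw [hw]; linarith)
      rw [hw, sub_sub_cancel] at h1
      rw [← mul_div_assoc, le_div_iff₀ hr]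
      exact h1
    · rw [closure_ball (0 : ℂ) (by linarith : 1 - r ≠ 0), mem_closedBall_zero_iff]
      linarith
  have h1 : ‖deriv g z‖ / K ≤ mm ω s := by
    refine le_mm hs fun r hr hrs => ?_
    rw [div_le_iff₀ hK, mul_comm]
    exact key r hr hrs
  rw [div_le_iff₀ hK] at h1
  linarith

namespace Sq

variable {c : ℝ} {k₀ : ℕ} {t : ℕ → ℝ} (h : Sq ω c k₀ t)
include h

/-- the condition (i) fails -/
theorem not_i (hω : IsModulus ω) : ¬ InB ω (fun z => (1 - z) * Bl (az ω k₀ t) z) := by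
  intro hg
  have hZ := h.zeros hω
  obtain ⟨K, hK, hb⟩ := deriv_le_mm hω hg
  obtain ⟨k, hk⟩ := exists_nat_gt (64 * K)
  have htk := h.pos k
  have htk8 := h.lt k
  set τ := t k with hτ
  set θ := th ω k₀ t k with hθ
  set e : ℂ := Complex.exp (θ * Complex.I) with he
  have hen : ‖e‖ = 1 := Complex.norm_exp_ofReal_mul_I θ
  set p : ℂ := ((1 - 2 * τ : ℝ) : ℂ) * e with hp
  have hpn : ‖p‖ = 1 - 2 * τ := by
    rw [hp, norm_mul, hen, mul_one, Complex.norm_real, Real.norm_eq_abs,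
      abs_of_nonneg (by linarith)]
  have ha : az ω k₀ t k = ((1 - τ : ℝ) : ℂ) * e := rfl
  have han : ‖az ω k₀ t k‖ = 1 - τ := h.az_norm k
  have hp1 : ‖p‖ < 1 := by rw [hpn]; linarith
  -- the value of delta at the test point
  have hden : 1 - (starRingEnd ℂ) (az ω k₀ t k) * p = ((τ * (3 - 2 * τ) : ℝ) : ℂ) := by
    rw [ha, hp, map_mul, Complex.conj_ofReal]
    have : (starRingEnd ℂ) e * e = 1 := by
      rw [mul_comm, Complex.mul_conj, Complex.normSq_eq_norm_sq, hen]; simp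
    have e2 : ((1 - τ : ℝ) : ℂ) * (starRingEnd ℂ) e * (((1 - 2 * τ : ℝ) : ℂ) * e) =
        ((1 - τ : ℝ) : ℂ) * ((1 - 2 * τ : ℝ) : ℂ) * ((starRingEnd ℂ) e * e) := by ring
    rw [e2, this]
    push_cast
    ring
  have hdl : 1 - dl (az ω k₀ t k) p = (1 / (3 - 2 * τ)) ^ 2 := by
    unfold dl
    rw [hden, han, hpn, Complex.norm_real, Real.norm_eq_abs, abs_of_nonneg (by nlinarith)]
    have h1 : (3 - 2 * τ) ≠ 0 := by linarith
    have h2 : τ ≠ 0 := htk.ne'
    have h3 : (τ * (3 - 2 * τ)) ^ 2 ≠ 0 := pow_ne_zero 2 (mul_ne_zero h2 h1)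
    rw [one_sub_div h3, div_pow, div_eq_div_iff h3 (pow_ne_zero 2 h1)]
    ring
  have hr1 : 1 / 3 ≤ 1 / (3 - 2 * τ) := one_div_le_one_div_of_le (by linarith) (by linarith)
  have hr2 : 1 / (3 - 2 * τ) ≤ 1 / 2 := one_div_le_one_div_of_le (by norm_num) (by linarith)
  have hdl1 : 1 / 9 ≤ 1 - dl (az ω k₀ t k) p := by rw [hdl]; nlinarith
  have hdl2 : 3 / 4 ≤ dl (az ω k₀ t k) p := by
    have : (1 / (3 - 2 * τ)) ^ 2 ≤ 1 / 4 := by nlinarith
    linarith
  have hexc : (1 / 2 : ℝ) ^ (k + 3) < dl (az ω k₀ t k) p := by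
    have : (1 / 2 : ℝ) ^ (k + 3) ≤ (1 / 2) ^ 3 :=
      pow_le_pow_of_le_one (by norm_num) (by norm_num) (by omega)
    norm_num at this ⊢
    linarith
  have hothers := h.exceptional hω hp1 hexc
  -- lower bound for the product
  have hlow : 1 / 12 ≤ ‖Bl (az ω k₀ t) p‖ ^ 2 := by
    classical
    refine hZ.lower hp1 fun s => ?_
    have h0 : ∀ i, 0 ≤ dl (az ω k₀ t i) p := fun i => dl_nonneg (hZ.lt i) hp1.le
    have h1 : ∀ i, dl (az ω k₀ t i) p ≤ 1 := fun i => dl_le_one (hZ.ne i) (hZ.lt i) hp1.le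
    have hs1 : ∏ i ∈ insert k s, (1 - dl (az ω k₀ t i) p) ≤ ∏ i ∈ s, (1 - dl (az ω k₀ t i) p) := by
      by_cases hks : k ∈ s
      · rw [Finset.insert_eq_of_mem hks]
      · rw [Finset.prod_insert hks]
        refine mul_le_of_le_one_left (Finset.prod_nonneg fun i _ => by linarith [h1 i]) ?_
        linarith [h0 k]
    refine le_trans ?_ hs1
    rw [← Finset.mul_prod_erase _ _ (Finset.mem_insert_self k s)]
    have h2 := one_sub_sum_le_prod ((insert k s).erase k) h0 h1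
    have h3 : ∑ i ∈ (insert k s).erase k, dl (az ω k₀ t i) p ≤ 1 / 4 := by
      have h4 : ∑ i ∈ (insert k s).erase k, dl (az ω k₀ t i) p ≤
          ∑ i ∈ (insert k s).erase k, (if 0 ≤ i then (1 / 2 : ℝ) ^ (i + 3) else 0) := by
        refine Finset.sum_le_sum fun i hi => ?_
        rw [if_pos (Nat.zero_le i)]
        exact (hothers i (Finset.ne_of_mem_erase hi)).1
      refine h4.trans ((geo_sum _ 0).trans ?_)
      norm_num
    have h5 : 3 / 4 ≤ ∏ i ∈ (insert k s).erase k, (1 - dl (az ω k₀ t i) p) := by linarith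
    nlinarith
  have hlow' : 1 / 4 ≤ ‖Bl (az ω k₀ t) p‖ := by
    by_contra hcon
    push Not at hcon
    nlinarith [norm_nonneg (Bl (az ω k₀ t) p)]
  -- lower bound for `|1 - p|`
  have hθ0 : 0 < θ := h.th_pos hω k
  have hθ1 : θ ≤ 1 := h.th_le_one hω k
  have hdist : θ / 4 ≤ ‖1 - p‖ := by
    have h1 : |(1 - p).im| ≤ ‖1 - p‖ := Complex.abs_im_le_norm _
    have h2 : (1 - p).im = -((1 - 2 * τ) * Real.sin θ) := by
      rw [hp, he, Complex.sub_im, Complex.one_im, Complex.im_ofReal_mul,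
        Complex.exp_ofReal_mul_I_im]
      ring
    have h3 : 2 / Real.pi * θ ≤ Real.sin θ :=
      Real.mul_le_sin hθ0.le (by have := Real.pi_gt_three; linarith)
    have h4 : 1 / 2 ≤ 2 / Real.pi := by
      rw [div_le_div_iff₀ (by norm_num) Real.pi_pos]
      have := Real.pi_le_four
      linarith
    rw [h2, abs_neg] at h1
    have h5 := le_abs_self ((1 - 2 * τ) * Real.sin θ)
    have h6 : 1 / 2 * θ ≤ Real.sin θ := (mul_le_mul_of_nonneg_right h4 hθ0.le).trans h3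
    have h7 : 3 / 4 * (1 / 2 * θ) ≤ (1 - 2 * τ) * Real.sin θ :=
      mul_le_mul (by linarith) h6 (by linarith) (by linarith)
    linarith
  -- the zero
  have hzero : Bl (az ω k₀ t) (az ω k₀ t k) = 0 := by
    have h1 := hZ.upper (z := az ω k₀ t k) (hZ.lt k) {k}
    rw [Finset.prod_singleton] at h1
    have h2 : dl (az ω k₀ t k) (az ω k₀ t k) = 1 := by
      have h3 := norm_bl_sq (hZ.ne k) (hZ.lt k) (hZ.lt k).le
      have h4 : bl (az ω k₀ t k) (az ω k₀ t k) = 0 := by simp [bl]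
      rw [h4, norm_zero] at h3
      linarith
    rw [h2, sub_self] at h1
    have h3 : ‖Bl (az ω k₀ t) (az ω k₀ t k)‖ = 0 := by
      have := sq_nonneg ‖Bl (az ω k₀ t) (az ω k₀ t k)‖
      exact pow_eq_zero_iff (two_ne_zero) |>.1 (le_antisymm h1 this)
    exact norm_eq_zero.1 h3
  -- mean value inequality
  have hmv : ‖(1 - p) * Bl (az ω k₀ t) p - (1 - az ω k₀ t k) * Bl (az ω k₀ t) (az ω k₀ t k)‖ ≤
      K * mm ω τ * ‖p - az ω k₀ t k‖ := by
    have hconv : Convex ℝ (Metric.closedBall (0 : ℂ) (1 - τ)) := convex_closedBall _ _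
    refine hconv.norm_image_sub_le_of_norm_deriv_le (𝕜 := ℂ)
      (f := fun z => (1 - z) * Bl (az ω k₀ t) z) (fun x hx => ?_) (fun x hx => ?_) ?_ ?_
    · rw [mem_closedBall_zero_iff] at hx
      exact hg.1.differentiableAt (Metric.isOpen_ball.mem_nhds
        (mem_ball_zero_iff.2 (by linarith)))
    · rw [mem_closedBall_zero_iff] at hx
      exact hb x τ htk (by linarith) (by linarith)
    · rw [mem_closedBall_zero_iff, han]
    · rw [mem_closedBall_zero_iff, hpn]; linarith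
  rw [hzero, mul_zero, sub_zero, norm_mul] at hmv
  have hpa : ‖p - az ω k₀ t k‖ = τ := by
    have : p - az ω k₀ t k = ((-τ : ℝ) : ℂ) * e := by
      rw [hp, ha]; push_cast; ring
    rw [this, norm_mul, hen, mul_one, Complex.norm_real, Real.norm_eq_abs, abs_neg,
      abs_of_pos htk]
  rw [hpa] at hmv
  have h1 : θ / 4 * (1 / 4) ≤ ‖1 - p‖ * ‖Bl (az ω k₀ t) p‖ :=
    mul_le_mul hdist hlow' (by norm_num) (norm_nonneg _)
  have hW0 := h.W_pos hω k
  have h2 : θ = ((k + k₀ : ℕ) : ℝ) * (τ * mm ω τ) := rfl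
  rw [h2] at h1
  have h3 : ((k + k₀ : ℕ) : ℝ) * (τ * mm ω τ) ≤ 16 * K * (τ * mm ω τ) := by nlinarith
  have h4 : ((k + k₀ : ℕ) : ℝ) ≤ 16 * K := le_of_mul_le_mul_right h3 hW0
  push_cast at h4
  have : (0 : ℝ) ≤ k₀ := Nat.cast_nonneg k₀
  linarith

end Sq

/-- N2: necessity of (A) -/
theorem nec_A (hω : IsModulus ω) (hP : PropertyP ω) : ∃ C, CondA ω C := by
  by_contra hA
  obtain ⟨c, hc, hlin⟩ := nec_lin hω hP
  obtain ⟨k₀, t, h⟩ := exists_sq hω hc hlin hA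
  have hf : InB ω (fun z => 1 - z) := by
    refine ⟨by fun_prop, c, 1 / 2, by norm_num, by norm_num, fun z hz0 hz1 => ?_⟩
    have : deriv (fun z : ℂ => 1 - z) z = -1 := by simp
    rw [this, norm_neg, norm_one, one_mul]
    exact hlin _ (by linarith) (by linarith)
  have h1 := hP _ _ hf (h.zeros hω).isInner
  exact h.not_i hω (h1.1.2 (h1.2.2 fun ε h0 h1 => h.cond_iii hω h0 h1))

end Pool.Agent.MP193109
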